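import Mathlib
import Pool.Agent.Y154.BQ.Defs

/-!
# The order of the pole of the zeta function and the rank of cycles modulo numerical equivalence
-/

set_option autoImplicit false

open CategoryTheory AlgebraicGeometry

universe u v w

namespace Pool.Agent.Q219.ST

open Polynomial Pool.Agent.H914 Pool.Agent.H914.VarClass Pool.Agent.H914.VarClass.Obj
  Pool.Agent.W492.BB Pool.Agent.W484.CK Pool.Agent.Y154.BQ

variable {k : Type u} [Field k] {𝒱 : VarClass k}

section chow

variable (C : TheoryData.{u, v, 0} 𝒱 ℚ)

/-- The group `A^c_num(X)` of cycles of codimension `c` modulo numerical equivalence, with rational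
coefficients: the image of `CH^c(X)` in the space of the functions on `CH^(d-c)(X)`, `d = dim X`,
`x ↦ (y ↦ deg (x · y))`. -/
def NumClasses (X : 𝒱.Obj) (c : ℤ) :
    Submodule ℚ ({y : C.A X // C.Deg ((X.dim : ℤ) - c) y} → ℚ) :=
  Submodule.span ℚ {f | ∃ x : C.A X, C.Deg c x ∧ ∀ y, HasDegree C (C.mul x y.1) (f y)}

/-- The rank of the group of cycles of codimension `c` modulo numerical equivalence. -/
noncomputable def numRank (X : 𝒱.Obj) (c : ℤ) : ℕ := Module.finrank ℚ (NumClasses C X c)

end chow

variable {C : TheoryData.{u, v, 0} 𝒱 ℚ} {F : Type w} [Field F]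
  (H : WeilTheoryData.{u, v, w} C F) {A X Z : 𝒱.Obj}

/-- The generalized eigenspace of the Frobenius endomorphism `π` relative to the field with `Q`
elements for the eigenvalue `Q ^ c` in `H ^ (2 c) (X)`. -/
def GenTate (π : X ⟶ X) (Q : ℕ) (c : ℤ) : Submodule F (H.A X) :=
  Submodule.span F {a | H.Deg (2 * c) a ∧ ∃ m : ℕ, (fun b => H.up π b - (Q : F) ^ c • b)^[m] a = 0}

/-- The multiplicity of the eigenvalue `Q ^ c` of Frobenius on `H ^ (2 c) (X)`. By the theorems of
Grothendieck and Deligne it is the order of the pole of the zeta function of `X` (over the field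
with `Q` elements) at `s = c`. -/
noncomputable def poleOrder (π : X ⟶ X) (Q : ℕ) (c : ℤ) : ℕ := Module.finrank F (GenTate H π Q c)

/-- The formula of Tate: the order of the pole at `s = c` is the rank of the group of cycles of
codimension `c` modulo numerical equivalence. -/
def TateFormula (π : X ⟶ X) (Q : ℕ) (c : ℤ) : Prop := poleOrder H π Q c = numRank C X c

/-- The complex number `ρ` is algebraic, and its conjugates lie, up to powers, in a group generated
by the nonzero elements of the number field `E` and `r` numbers. -/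
def HasSmallRank (E : IntermediateField ℚ ℂ) (r : ℕ) (ρ : ℂ) : Prop :=
  ∃ χ : ℚ[X], χ ≠ 0 ∧ aeval ρ χ = 0 ∧ GroupOfRank E r {ρ' : ℂ | aeval ρ' χ = 0}

/-- The eigenvalues of `π` on the cohomology of `Z` are roots of a nonzero rational polynomial all of
whose complex roots have small rank. -/
def EigenvaluesSmall [CharZero F] (E : IntermediateField ℚ ℂ) (r : ℕ) (π : Z ⟶ Z) : Prop :=
  ∃ χ : ℚ[X], χ ≠ 0 ∧ (∀ (ρ : F) (a : H.A Z), a ≠ 0 → H.up π a = ρ • a → aeval ρ χ = 0) ∧
    ∀ ρ : ℂ, aeval ρ χ = 0 → HasSmallRank E r ρ

/-- `πA` is the Frobenius endomorphism of an abelian variety `A` over the field with `q ^ s`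
elements, isogenous to a product of powers of abelian varieties coming from the field with `q`
elements with characteristic polynomials `f i`; `Z` is any variety over the field with `q ^ s`
elements, such that the eigenvalues of its Frobenius endomorphism `πZ` on the cohomology have small
rank; the Frobenius endomorphism `πA × πZ` acts on the Chow groups of `A × Z` in the usual way. -/
structure IsFactorPair [CharZero F] (E : IntermediateField ℚ ℂ) (r q s : ℕ) {I : Type}
    (f : I → ℤ[X]) (πA : A ⟶ A) (πZ : Z ⟶ Z) : Prop where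
  standard : IsStandard H
  pos : 0 < s
  abelian : IsAbelian H πA q s f
  small : EigenvaluesSmall H E r πZ
  frobenius : IsFrobenius C (prodMap πA πZ) (q ^ s)

/-- The formulas for the order of the pole and for the rank of the group of cycles modulo numerical
equivalence for `A × Z`. -/
structure Formulas (A Z : 𝒱.Obj) (πA : A ⟶ A) (πZ : Z ⟶ Z) (Q : ℕ) : Prop where
  /-- the formula of Tate holds for `A` -/
  factor : ∀ i ≤ A.dim, 0 < numRank C A i ∧ TateFormula H πA Q i
  /-- the rank for `A × Z` -/
  rank : ∀ c : ℤ, numRank C (A.prod Z) c =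
    ∑ i ∈ Finset.range (A.dim + 1), numRank C A i * numRank C Z (c - i)
  /-- the order of the pole for `A × Z` -/
  pole : ∀ c : ℤ, poleOrder H (prodMap πA πZ) Q c =
    ∑ i ∈ Finset.range (A.dim + 1), numRank C A i * poleOrder H πZ Q (c - i)
  /-- the formula of Tate for `A × Z` -/
  tate : ∀ c : ℤ, TateFormula H (prodMap πA πZ) Q c ↔ ∀ i ≤ A.dim, TateFormula H πZ Q (c - i)

/-- `DefectTimes E r q f`: the formulas hold for the Chow groups `C` with rational coefficients of
all classes `𝒱` of varieties over fields `k` (finite, in the intended use), every Weil cohomology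
theory `H` with coefficients in an algebraically closed field `F` of characteristic zero and all
`A`, `Z` as in `IsFactorPair`. -/
def DefectTimes (E : IntermediateField ℚ ℂ) (r q : ℕ) {I : Type} (f : I → ℤ[X]) : Prop :=
  ∀ (k : Type) [Field k] (𝒱 : VarClass k) (C : TheoryData.{0, 0, 0} 𝒱 ℚ) [IsChow C]
    (F : Type) [Field F] [IsAlgClosed F] [CharZero F] (H : WeilTheoryData.{0, 0, 0} C F)
    [IsWeil H] (s : ℕ) (A Z : 𝒱.Obj) (πA : A ⟶ A) (πZ : Z ⟶ Z),
      IsFactorPair H E r q s f πA πZ → Formulas H A Z πA πZ (q ^ s)

end Pool.Agent.Q219.ST
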