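import Mathlib
import Pool.Agent.W484.CK.KunnethEig
import Pool.Agent.W484.CK.NCTateMain
import Pool.Agent.W484.HS.Abs

/-!
# The Kunneth formula for products with abelian varieties without relations

(The parts of `Pool.Agent.Y1.CT.Field`, `Kun`, `Codim` that are needed here, for a general property
`R` of the eigenvalues.)
-/

set_option autoImplicit false
set_option linter.unusedSectionVars false
set_option linter.unusedVariables false

open CategoryTheory AlgebraicGeometry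

universe u v w

namespace Pool.Agent.Q219.ST

open Module Polynomial Pool.Agent.H914 Pool.Agent.H914.VarClass Pool.Agent.H914.VarClass.Obj
  Pool.Agent.W492.BB Pool.Agent.W550.Corr Pool.Agent.W484.HS Pool.Agent.W484.CH

/-- The relations for a field of characteristic zero. -/
theorem exactPair_field {I : Type} (f : I → ℤ[X]) (hmon : ∀ i, (f i).Monic) (q s : ℕ) (χ : ℚ[X])
    (hχ : χ ≠ 0)
    (h : ∀ ρ : ℂ, aeval ρ χ = 0 →
      ExactPairK (fun z : {z : ℂ // ∃ i, aeval z (f i) = 0} => (z : ℂ) ^ s) ((q : ℂ) ^ s) ρ)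
    {K : Type*} [Field K] [CharZero K] (ρ : K) (hρ : aeval ρ χ = 0) :
    ExactPairK (fun z : {z : K // ∃ i, aeval z (f i) = 0} => (z : K) ^ s)
      ((q : K) ^ s) ρ := by
  classical
  have hmem : ∀ z : K, (∃ p : ℚ[X], p ≠ 0 ∧ aeval z p = 0) → z ∈ algebraicClosure ℚ K := by
    rintro z ⟨p, hp, hz⟩
    rw [mem_algebraicClosure_iff]
    exact ⟨p, hp, hz⟩
  have halg : Algebra.IsAlgebraic ℚ (algebraicClosure ℚ K) := algebraicClosure.isAlgebraic ℚ K
  let j : algebraicClosure ℚ K →ₐ[ℚ] ℂ := IsAlgClosed.lift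
  have hρm := hmem ρ ⟨χ, hχ, hρ⟩
  have hρj : aeval (j ⟨ρ, hρm⟩) χ = 0 := by
    rw [Polynomial.aeval_algHom_apply]
    have h1 : aeval (⟨ρ, hρm⟩ : algebraicClosure ℚ K) χ = 0 := by
      apply (algebraMap (algebraicClosure ℚ K) K).injective
      rw [← Polynomial.aeval_algebraMap_apply, map_zero]
      exact hρ
    rw [h1, map_zero]
  have h0 := h _ hρj
  have hzm : ∀ z : {z : K // ∃ i, aeval z (f i) = 0}, (z : K) ∈ algebraicClosure ℚ K := by
    rintro ⟨z, i, hi⟩
    refine hmem z ⟨(f i).map (algebraMap ℤ ℚ), ?_, ?_⟩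
    · exact ((hmon i).map _).ne_zero
    · rw [aeval_map_algebraMap]
      exact hi
  have hz : ∀ z : {z : K // ∃ i, aeval z (f i) = 0},
      ∃ i, aeval (j ⟨z, hzm z⟩) (f i) = 0 := by
    rintro ⟨z, i, hi⟩
    refine ⟨i, ?_⟩
    have h2 := Polynomial.hom_eval₂ (f i) (algebraMap ℤ _)
      (j : algebraicClosure ℚ K →+* ℂ) ⟨z, hzm ⟨z, i, hi⟩⟩
    rw [RingHom.ext_int ((j : algebraicClosure ℚ K →+* ℂ).comp (algebraMap ℤ _))
      (algebraMap ℤ ℂ)] at h2
    have h3 : eval₂ (algebraMap ℤ (algebraicClosure ℚ K)) (⟨z, hzm ⟨z, i, hi⟩⟩ :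
        algebraicClosure ℚ K) (f i) = 0 := by
      apply (algebraMap (algebraicClosure ℚ K) K).injective
      rw [map_zero, Polynomial.hom_eval₂, RingHom.ext_int ((algebraMap (algebraicClosure ℚ K)
        K).comp (algebraMap ℤ _)) (algebraMap ℤ K)]
      exact hi
    rw [h3, map_zero] at h2
    exact h2.symm
  intro n c N hN hn ys hlen hrel hpw
  let φ : {z : K // ∃ i, aeval z (f i) = 0} →
      {z : ℂ // ∃ i, aeval z (f i) = 0} := fun z => ⟨j ⟨z, hzm z⟩, hz z⟩
  have hrel0 : ((ys.map (fun z : {z : K // ∃ i, aeval z (f i) = 0} =>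
      (⟨z, hzm z⟩ : algebraicClosure ℚ K) ^ s)).prod * ⟨ρ, hρm⟩) ^ N = (((q : algebraicClosure ℚ K) ^ s) ^ c) ^ N := by
    apply (algebraMap (algebraicClosure ℚ K) K).injective
    rw [map_pow, map_mul, _root_.map_list_prod, List.map_map, map_pow, map_zpow₀, map_pow,
      map_natCast]
    exact hrel
  refine h0 n c N hN hn (ys.map φ) (by rw [List.length_map, hlen]) ?_ ?_
  · have h4 := congrArg j hrel0
    rw [map_pow, map_mul, _root_.map_list_prod j, List.map_map, map_pow, map_zpow₀, map_pow,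
      map_natCast] at h4
    rw [List.map_map, ← h4]
    congr 4
    funext z
    change (j ⟨z, hzm z⟩) ^ s = j (⟨z, hzm z⟩ ^ s)
    rw [map_pow]
  · rw [List.pairwise_map]
    refine hpw.imp ?_
    intro a b hab h5
    apply hab
    change (j ⟨a, hzm a⟩) ^ s * (j ⟨b, hzm b⟩) ^ s = (q : ℂ) ^ s at h5
    have h6 : (⟨a, hzm a⟩ : algebraicClosure ℚ K) ^ s * ⟨b, hzm b⟩ ^ s =
        (q : algebraicClosure ℚ K) ^ s := by
      apply (j : algebraicClosure ℚ K →+* ℂ).injective
      rw [map_mul, map_pow, map_pow, map_pow, map_natCast]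
      exact h5
    have h7 := congrArg (algebraMap (algebraicClosure ℚ K) K) h6
    rw [map_mul, map_pow, map_pow, map_pow, map_natCast] at h7
    exact h7

variable {k : Type u} [Field k] {𝒱 : VarClass k} {C : TheoryData.{u, v, 0} 𝒱 ℚ} {K : Type w}
  [Field K] [CharZero K] {H : WeilTheoryData.{u, v, w} C K} [hC : IsChow C] [hH : IsWeil H]
  {A Z X Y : 𝒱.Obj}

/-- There are no relations between the roots of the `f i`, numbers with the property `R` and powers
of `q`, except the obvious ones. -/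
structure NoRel {I : Type} (f : I → ℤ[X]) (q : ℕ) (R : ℂ → Prop) : Prop where
  monic : ∀ i, (f i).Monic
  one : R 1
  pair : ∀ s : ℕ, 0 < s → ∀ ρ : ℂ, R ρ →
    ExactPairK (fun z : {z : ℂ // ∃ i, aeval z (f i) = 0} => (z : ℂ) ^ s) ((q : ℂ) ^ s) ρ

/-- The eigenvalues of `φ` are roots of a nonzero rational polynomial whose complex roots have the
property `R`. -/
def EigenIn {V : Type*} [AddCommGroup V] [Module K V] (R : ℂ → Prop) (φ : V →ₗ[K] V) : Prop :=
  ∃ χ : ℚ[X], χ ≠ 0 ∧ (∀ (ρ : K) (v : V), v ≠ 0 → φ v = ρ • v → aeval ρ χ = 0) ∧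
    ∀ ρ : ℂ, aeval ρ χ = 0 → R ρ

variable {I : Type} {q : ℕ} (hq : 1 < q) {f : I → ℤ[X]} {R : ℂ → Prop} (hR : NoRel f q R)

include hR in
theorem root_one (ρ : ℂ) (h : aeval ρ (Polynomial.X - 1 : ℚ[X]) = 0) : R ρ := by
  rw [map_sub, aeval_X, map_one, sub_eq_zero] at h
  rw [h]
  exact hR.one

include hq hR in
/-- **Existence of a good basis.** -/
theorem exists_good_basis (hS : IsStandard H) {s : ℕ} (hs : 0 < s) {πA : A ⟶ A}
    (hA : IsAbelian H πA q s f) :
    ∃ (n : ℕ) (b : Basis (Fin n) K (H.A A)) (α : Fin n → K),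
      (∀ t, H.pull πA (b t) = α t • b t) ∧ (∀ t, IsIntegral ℚ (α t)) ∧
      ∀ (χ : ℚ[X]), χ ≠ 0 → (∀ ρ : ℂ, aeval ρ χ = 0 → R ρ) → ∀ ρ : K, aeval ρ χ = 0 →
        ∀ t (c : ℤ), α t * ρ = ((q ^ s : ℕ) : K) ^ c →
          ∃ l : ℕ, α t = ((q ^ s : ℕ) : K) ^ l ∧ b t ∈ NK H A l := by
  have hfin := hS.finite A
  have hq0 : q ≠ 0 := by omega
  let val : {z : K // ∃ i, aeval z (f i) = 0} → K := fun z => (z : K) ^ s
  have hU : Submodule.span K {v : H.A A | v ∈ H.gr A 1 ∧ ∃ y, H.pull πA v = val y • v} =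
      H.gr A 1 := by
    refine Eq.trans ?_ hA.eigen
    congr 1
    ext v
    constructor
    · rintro ⟨h1, ⟨z, i, hz⟩, h2⟩
      exact ⟨h1, i, z, hz, h2⟩
    · rintro ⟨h1, i, z, hz, h2⟩
      exact ⟨h1, ⟨z, i, hz⟩, h2⟩
  obtain ⟨n, b, α, hb⟩ := exists_basis (H.pull πA) val (H.gr A 1) hU hA.generated
  have hQ : ((q ^ s : ℕ) : K) = (q : K) ^ s := by push_cast; rfl
  have hQ0 : (q : K) ^ s ≠ 0 := pow_ne_zero _ (by exact_mod_cast hq0)
  refine ⟨n, b, α, fun t => (hb t).1, fun t => ?_, ?_⟩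
  · obtain ⟨-, L, -, -, hL⟩ := hb t
    rw [hL]
    clear hL
    induction L with
    | nil => simpa using isIntegral_one
    | cons a L ih =>
      rw [List.map_cons, List.prod_cons]
      refine IsIntegral.mul ?_ ih
      obtain ⟨i, hi⟩ := a.2.2
      have h1 : IsIntegral ℤ (a.2 : K) := ⟨f i,
        hR.monic i, hi⟩
      exact (h1.tower_top (A := ℚ)).pow s
  · intro χ hχ hrank ρ hρ t c hc
    obtain ⟨-, L, hL1, hL2, hL3⟩ := hb t
    have hpair := exactPair_field f hR.monic q s χ hχ (fun ρ hρ => hR.pair s hs ρ (hrank ρ hρ)) ρ hρ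
    have h1 := list_graded (H.pull πA) val ((q : K) ^ s) ρ hQ0 hpair (NK H A) one_mem_NK
      (fun a ha l b hb => by
        rw [add_comm l 1]
        exact mul_mem_NK ha hb)
      (H.gr A 1 : Set (H.A A)) (fun a ha b hb => hA.anticomm a b ha hb)
      (fun a ha b hb y y' h2 h3 h4 => by
        apply mem_NK_one
        refine hA.tate (a * b) (H.mul_mem ha hb) ?_
        change H.pull πA (a * b) = _
        rw [map_mul, h2, h3, smul_mul_smul_comm, h4, hQ])
      L.length c 1 one_pos L rfl hL1 (by rw [pow_one, pow_one, ← hL3, ← hQ]; exact hc)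
    obtain ⟨l, -, h2, h3⟩ := h1
    refine ⟨l, ?_, ?_⟩
    · rw [hL3, h2, hQ]
    · rw [hL2]
      exact h3

/-- The power of the operator on a basis of eigenvectors. -/
theorem op_eigen {V : Type*} [AddCommGroup V] [Module K V] (φ : Module.End K V) {a μ : K} {v : V}
    (hv : φ v = a • v) (m : ℕ) : op φ μ m v = (a - μ) ^ m • v := by
  induction m with
  | zero => simp [op]
  | succ m ih =>
    have h1 : op φ μ (m + 1) v = (φ - μ • (1 : Module.End K V)) (op φ μ m v) := by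
      rw [op, op, pow_succ', Module.End.mul_apply]
    rw [h1, ih, map_smul, LinearMap.sub_apply, LinearMap.smul_apply, Module.End.one_apply, hv,
      ← sub_smul, smul_smul, pow_succ]

/-- Generalized eigenvectors on `A` are spanned by classes of products of divisors. -/
theorem gen_mem_span {πA : A ⟶ A} {Q : ℕ} (hQ : 1 < Q) {n : ℕ} (b : Basis (Fin n) K (H.A A))
    (α : Fin n → K) (hb : ∀ t, H.pull πA (b t) = α t • b t)
    (h1 : ∀ t (c : ℤ), α t = (Q : K) ^ c → ∃ l : ℕ, α t = (Q : K) ^ l ∧ b t ∈ NK H A l)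
    (i : ℕ) (m : ℕ) (a : H.A A) (ha : op (frob H πA) ((Q : K) ^ (i : ℤ)) m a = 0) :
    a ∈ NK H A i := by
  have h2 : a = ∑ t, b.repr a t • b t := (b.sum_repr a).symm
  have h3 : ∑ t, (b.repr a t * (α t - (Q : K) ^ (i : ℤ)) ^ m) • b t = 0 := by
    rw [h2, map_sum] at ha
    rw [← ha]
    refine Finset.sum_congr rfl fun t _ => ?_
    rw [map_smul, op_eigen (frob H πA) (hb t) m, smul_smul]
  have h4 : ∀ t, b.repr a t * (α t - (Q : K) ^ (i : ℤ)) ^ m = 0 := by
    intro t
    exact (Fintype.linearIndependent_iff.1 b.linearIndependent) _ h3 t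
  rw [h2]
  refine Submodule.sum_mem _ fun t _ => ?_
  rcases mul_eq_zero.1 (h4 t) with h5 | h5
  · rw [h5, zero_smul]
    exact Submodule.zero_mem _
  · have h6 : α t = (Q : K) ^ (i : ℤ) := by
      rw [← sub_eq_zero]
      exact eq_zero_of_pow_eq_zero h5
    obtain ⟨l, hl1, hl2⟩ := h1 t i h6
    have h7 : l = i := by
      rw [h6, zpow_natCast] at hl1
      have h8 : ((Q ^ i : ℕ) : K) = ((Q ^ l : ℕ) : K) := by
        push_cast
        exact hl1
      exact (Nat.pow_right_injective hQ (Nat.cast_injective h8)).symm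
    rw [h7] at hl2
    exact Submodule.smul_mem _ _ hl2

include hq hR in
/-- **The Kunneth formula for generalized eigenvectors of Frobenius.** -/
theorem kunneth_gen [IsAlgClosed K] (hS : IsStandard H) {s : ℕ} (hs : 0 < s) {πA : A ⟶ A}
    {πZ : Z ⟶ Z} (hA : IsAbelian H πA q s f)
    (hZ : EigenIn R (frob H πZ)) :
    ∃ (J : Type) (_ : Fintype J) (deg : J → ℕ) (D E : J → C.A A), Nonempty J ∧
      IsDual A Z deg D E ∧
      (∀ j, D j ∈ DivProd C A (deg j)) ∧
      (∀ (i : ℕ) (m : ℕ) (a : H.A A), op (frob H πA) (((q ^ s : ℕ) : K) ^ (i : ℤ)) m a = 0 →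
        a ∈ Submodule.span K {c : H.A A | ∃ j, deg j = i ∧ c = H.cl (D j)}) ∧
      ∀ (i : ℤ) (m : ℕ) (w : H.A (A.prod Z)),
        op (frob H (prodMap πA πZ)) (((q ^ s : ℕ) : K) ^ i) m w = 0 →
          H.act (H.cl (proj Z D E)) w = w := by
  obtain ⟨n, b, α, hb, hα, hgood⟩ := exists_good_basis hq hR hS hs hA
  have hQ1 : 1 < q ^ s := Nat.one_lt_pow hs.ne' hq
  have hX1 : (Polynomial.X - 1 : ℚ[X]) ≠ 0 := by
    have := Polynomial.X_sub_C_ne_zero (1 : ℚ)
    rwa [map_one] at this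
  have h1 : ∀ t (c : ℤ), α t = ((q ^ s : ℕ) : K) ^ c →
      ∃ l : ℕ, α t = ((q ^ s : ℕ) : K) ^ l ∧ b t ∈ NK H A l := by
    intro t c hc
    exact hgood _ hX1 (root_one hR) 1 (by rw [map_sub, aeval_X, map_one, sub_self]) t c
      (by rw [mul_one]; exact hc)
  obtain ⟨J, hJ, deg, D, E', hdual, hD, hE, hN⟩ :=
    exists_dual2 hS hA.frobenius hQ1 b α hb h1 Z
  have hne : Nonempty J := by
    by_contra hne
    rw [not_nonempty_iff] at hne
    have h2 := hN 0 (one_mem_NK (H := H) (A := A))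
    have h3 : {c : H.A A | ∃ j, deg j = 0 ∧ c = H.cl (D j)} = ∅ := by
      ext c
      constructor
      · rintro ⟨j, -⟩
        exact hne.elim j
      · intro h
        exact h.elim
    rw [h3, Submodule.span_empty, Submodule.mem_bot] at h2
    have := hS.nontrivial A
    exact one_ne_zero h2
  refine ⟨J, hJ, deg, D, E', hne, hdual, hD, fun i m a ha => ?_, fun i m w hw => ?_⟩
  · exact hN i (gen_mem_span hQ1 b α hb h1 i m a ha)
  obtain ⟨χ, hχ, hχe, hrank⟩ := hZ
  have hmix : w ∈ mix H A Z := by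
    refine mem_mix (πZ := πZ) hS b α hb (Q := q ^ s) (by omega) i ?_ m _ hw
    intro t ρ v hv0 hv hc
    obtain ⟨l, -, hl⟩ := hgood χ hχ hrank ρ (hχe ρ v hv0 hv) t i hc
    exact ⟨l, hl⟩
  exact act_proj_mix hdual hN hmix

end Pool.Agent.Q219.ST
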