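import Mathlib
import Pool.Agent.Q219.ST.Defs

/-!
# Homological and numerical equivalence on products: definitions
-/

set_option autoImplicit false

open CategoryTheory AlgebraicGeometry

universe u v w

namespace Pool.Agent.Q219.ST

open Polynomial Pool.Agent.H914 Pool.Agent.H914.VarClass Pool.Agent.H914.VarClass.Obj
  Pool.Agent.W492.BB Pool.Agent.W484.CK Pool.Agent.Y154.BQ

variable {k : Type u} [Field k] {𝒱 : VarClass k} {C : TheoryData.{u, v, 0} 𝒱 ℚ}

/-- The cycle `x` of codimension `c` on `X` (up to rational equivalence, with rational coefficients) is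
numerically trivial: the intersection number with each cycle of complementary dimension is zero. -/
def NumTrivial {X : 𝒱.Obj} (c : ℤ) (x : C.A X) : Prop :=
  ∀ y : C.A X, C.Deg ((X.dim : ℤ) - c) y → HasDegree C (C.mul x y) 0

variable {F : Type w} [Field F] (H : WeilTheoryData.{u, v, w} C F)

/-- The cycle `x` is homologically trivial. -/
def HomTrivial {X : 𝒱.Obj} (x : C.A X) : Prop := H.cl x = 0

/-- The conjecture `D` for the cycles of codimension `c` on `X`: numerically trivial cycles are
homologically trivial. -/
def HomEqNumIn (X : 𝒱.Obj) (c : ℤ) : Prop :=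
  ∀ x : C.A X, C.Deg c x → NumTrivial c x → HomTrivial H x

/-- The cycle `x` of codimension `c` on `A × Z` is homologically equivalent to `∑ D j × z j` for
cycles `z j` of codimension `c - deg j` on `Z`. -/
def Expands {A Z : 𝒱.Obj} {J : Type} [Fintype J] (deg : J → ℕ) (D : J → C.A A) (c : ℤ)
    (x : C.A (A.prod Z)) : Prop :=
  ∃ z : J → C.A Z, (∀ j, C.Deg (c - deg j) (z j)) ∧ HomTrivial H (x - ∑ j, times C (D j) (z j))

/-- For all cycles `z j` of codimension `c - deg j` on `Z`, the cycle `∑ D j × z j` on `A × Z` is
homologically (numerically) trivial if and only if all `z j` are. -/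
def IsIndependent {A : 𝒱.Obj} (Z : 𝒱.Obj) {J : Type} [Fintype J] (deg : J → ℕ) (D : J → C.A A)
    (c : ℤ) : Prop :=
  ∀ z : J → C.A Z, (∀ j, C.Deg (c - deg j) (z j)) →
    (HomTrivial H (∑ j, times C (D j) (z j)) ↔ ∀ j, HomTrivial H (z j)) ∧
    (NumTrivial c (∑ j, times C (D j) (z j)) ↔ ∀ j, NumTrivial (c - deg j) (z j))

/-- The Kunneth formula for the groups of cycles on `A × Z` modulo homological and numerical
equivalence: there are finitely many products `D j` of `deg j` divisor classes on `A`, where exactly
the numbers between `0` and `dim A` occur as `deg j`, such that all cycles on `A × Z` of any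
codimension can be written as `∑ D j × z j`, up to homological equivalence, and the `z j` are unique
up to homological, respectively numerical, equivalence. -/
def CycleKunneth (A Z : 𝒱.Obj) : Prop :=
  ∃ (J : Type) (_ : Fintype J) (deg : J → ℕ) (D : J → C.A A),
    (∀ j, DivisorProduct C (deg j) (D j)) ∧ (∀ i : ℕ, i ≤ A.dim ↔ ∃ j, deg j = i) ∧
    ∀ c : ℤ, (∀ x : C.A (A.prod Z), C.Deg c x → Expands H deg D c x) ∧ IsIndependent H Z deg D c

/-- `EquivalencesTimes E r q f`: the following holds for the Chow groups `C` with rational
coefficients of all classes `𝒱` of varieties over fields `k` (finite, in the intended use), every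
Weil cohomology theory `H` with coefficients in an algebraically closed field `F` of characteristic
zero and all `A`, `Z` as in `IsFactorPair`: the Kunneth formula for the groups of cycles modulo
homological and numerical equivalence is true for `A × Z`; and for all `c` the conjecture `D`
holds for the cycles of codimension `c` on `A × Z` if and only if it holds for the cycles of
codimension `c - i` on `Z`, `0 ≤ i ≤ dim A`. -/
def EquivalencesTimes (E : IntermediateField ℚ ℂ) (r q : ℕ) {I : Type} (f : I → ℤ[X]) : Prop :=
  ∀ (k : Type) [Field k] (𝒱 : VarClass k) (C : TheoryData.{0, 0, 0} 𝒱 ℚ) [IsChow C]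
    (F : Type) [Field F] [IsAlgClosed F] [CharZero F] (H : WeilTheoryData.{0, 0, 0} C F)
    [IsWeil H] (s : ℕ) (A Z : 𝒱.Obj) (πA : A ⟶ A) (πZ : Z ⟶ Z),
      IsFactorPair H E r q s f πA πZ →
        CycleKunneth H A Z ∧
        ∀ c : ℤ, HomEqNumIn H (A.prod Z) c ↔ ∀ i ≤ A.dim, HomEqNumIn H Z (c - i)

end Pool.Agent.Q219.ST
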