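import Mathlib

/-!
# Linear algebra: decompositions of quotients, and linear independence of functions
-/

set_option autoImplicit false

namespace Pool.Agent.Q219.ST

open Module

/-- Quotients decompose. -/
theorem exists_equiv {F : Type*} [Field F] {V : Type*} [AddCommGroup V] [Module F V] {J : Type*}
    [Fintype J] [DecidableEq J] {W : J → Type*} [∀ j, AddCommGroup (W j)] [∀ j, Module F (W j)]
    (N : Submodule F V) (M : ∀ j, Submodule F (W j)) (P : ∀ j, V →ₗ[F] W j)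
    (I : ∀ j, W j →ₗ[F] V) (hPI : ∀ j w, P j (I j w) = w)
    (hPI' : ∀ i j, i ≠ j → ∀ w, P i (I j w) = 0)
    (hsum : ∀ v, v - ∑ j, I j (P j v) ∈ N) (hP : ∀ j, ∀ v ∈ N, P j v ∈ M j)
    (hI : ∀ j, ∀ w ∈ M j, I j w ∈ N) : Nonempty ((V ⧸ N) ≃ₗ[F] ∀ j, (W j ⧸ M j)) := by
  let Φ : (V ⧸ N) →ₗ[F] ∀ j, (W j ⧸ M j) := LinearMap.pi fun j => N.mapQ (M j) (P j) (hP j)
  let Ψ : (∀ j, (W j ⧸ M j)) →ₗ[F] (V ⧸ N) :=
    ∑ j, ((M j).mapQ N (I j) (hI j)) ∘ₗ LinearMap.proj j
  have hΦ : ∀ v i, Φ (N.mkQ v) i = (M i).mkQ (P i v) := fun v i => rfl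
  have hΨ : ∀ w : ∀ j, W j, Ψ (fun j => (M j).mkQ (w j)) = N.mkQ (∑ j, I j (w j)) := by
    intro w
    rw [map_sum]
    simp only [Ψ, LinearMap.sum_apply]
    rfl
  refine ⟨LinearEquiv.ofLinearMap Φ Ψ ?_ ?_⟩
  · refine LinearMap.ext fun x => ?_
    choose w hw using fun j => (M j).mkQ_surjective (x j)
    have hx : x = fun j => (M j).mkQ (w j) := funext fun j => (hw j).symm
    rw [LinearMap.comp_apply, LinearMap.id_apply, hx, hΨ]
    funext i
    rw [hΦ, map_sum, Finset.sum_eq_single i, hPI]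
    · intro j _ hj
      exact hPI' i j hj.symm (w j)
    · intro h
      exact absurd (Finset.mem_univ i) h
  · refine LinearMap.ext fun x => ?_
    obtain ⟨v, rfl⟩ := N.mkQ_surjective x
    rw [LinearMap.comp_apply, LinearMap.id_apply]
    have h1 : Φ (N.mkQ v) = fun i => (M i).mkQ (P i v) := funext fun i => hΦ v i
    rw [h1, hΨ]
    symm
    rw [← sub_eq_zero, ← map_sub, Submodule.mkQ_apply, Submodule.Quotient.mk_eq_zero]
    exact hsum v

/-- The dimension formula. -/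
theorem finrank_eq_sum {F : Type*} [Field F] {V : Type*} [AddCommGroup V] [Module F V] {J : Type*}
    [Fintype J] {W : J → Type*} [∀ j, AddCommGroup (W j)] [∀ j, Module F (W j)]
    (N : Submodule F V) (M : ∀ j, Submodule F (W j)) [∀ j, Module.Finite F (W j ⧸ M j)]
    (P : ∀ j, V →ₗ[F] W j)
    (I : ∀ j, W j →ₗ[F] V) (hPI : ∀ j w, P j (I j w) = w)
    (hPI' : ∀ i j, i ≠ j → ∀ w, P i (I j w) = 0)
    (hsum : ∀ v, v - ∑ j, I j (P j v) ∈ N) (hP : ∀ j, ∀ v ∈ N, P j v ∈ M j)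
    (hI : ∀ j, ∀ w ∈ M j, I j w ∈ N) : finrank F (V ⧸ N) = ∑ j, finrank F (W j ⧸ M j) := by
  classical
  obtain ⟨e⟩ := exists_equiv N M P I hPI hPI' hsum hP hI
  rw [e.finrank_eq, Module.finrank_pi_fintype]

/-- Linear independence of rational functions over a larger field. -/
theorem linearIndependent_cast {F : Type*} [Field F] [CharZero F] {Y ι : Type*} (f : ι → Y → ℚ)
    (hf : LinearIndependent ℚ f) : LinearIndependent F fun i y => (f i y : F) := by
  classical
  rw [linearIndependent_iff'] at hf ⊢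
  intro s g hg i hi
  by_contra hne
  -- a rational functional which does not vanish at `g i`
  obtain ⟨φ, hφ⟩ : ∃ φ : F →ₗ[ℚ] ℚ, φ (g i) ≠ 0 := by
    by_contra hcon
    push Not at hcon
    exact hne ((Module.forall_dual_apply_eq_zero_iff ℚ (g i)).1 hcon)
  refine hφ (hf s (fun i => φ (g i)) ?_ i hi)
  funext y
  have h1 := congrFun hg y
  rw [Finset.sum_apply] at h1 ⊢
  have h2 := congrArg φ h1
  rw [map_sum] at h2
  rw [Pi.zero_apply] at h2 ⊢
  rw [map_zero] at h2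
  rw [← h2]
  refine Finset.sum_congr rfl fun j _ => ?_
  rw [Pi.smul_apply, Pi.smul_apply, smul_eq_mul, smul_eq_mul]
  have h3 : g j * (f j y : F) = (f j y) • g j := by
    rw [Algebra.smul_def, eq_ratCast, mul_comm]
  rw [h3, map_smul, smul_eq_mul, mul_comm]

end Pool.Agent.Q219.ST
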