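import Mathlib
import Pool.Agent.Y154.BQ.Pair
import Pool.Agent.Q219.ST.Defs
import Pool.Agent.Q219.ST.Lin
import Pool.Agent.Q219.ST.Kun

/-!
# The rank of the group of cycles modulo numerical equivalence
-/

set_option autoImplicit false
set_option linter.unusedSectionVars false
set_option linter.unusedVariables false

open CategoryTheory AlgebraicGeometry

universe u v w

namespace Pool.Agent.Q219.ST

open Module Polynomial Pool.Agent.H914 Pool.Agent.H914.VarClass Pool.Agent.H914.VarClass.Obj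
  Pool.Agent.W492.BB Pool.Agent.W550.Corr Pool.Agent.W484.HS Pool.Agent.W484.CH Pool.Agent.Y154.BQ

variable {k : Type u} [Field k] {𝒱 : VarClass k} {C : TheoryData.{u, v, 0} 𝒱 ℚ} {K : Type w}
  [Field K] [CharZero K] {H : WeilTheoryData.{u, v, w} C K} [hC : IsChow C] [hH : IsWeil H]
  {A Z X Y : 𝒱.Obj}

section num

variable (hS : IsStandard H)

include hS

/-- The pairing as a linear map. -/
theorem exists_num (X : 𝒱.Obj) (c : ℤ) :
    ∃ Ψ : C.gr X c →ₗ[ℚ] ({y : C.A X // C.Deg ((X.dim : ℤ) - c) y} → ℚ),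
      (∀ (x : C.gr X c) (y : {y : C.A X // C.Deg ((X.dim : ℤ) - c) y}),
        HasDegree C ((x : C.A X) * y.1) (Ψ x y)) ∧ LinearMap.range Ψ = NumClasses C X c := by
  obtain ⟨β, hβ⟩ := exists_form hS X c
  let Ψ : C.gr X c →ₗ[ℚ] ({y : C.A X // C.Deg ((X.dim : ℤ) - c) y} → ℚ) :=
    { toFun := fun x y => β x ⟨y.1, y.2⟩
      map_add' := fun x x' => by
        funext y
        simp
      map_smul' := fun r x => by
        funext y
        simp }
  have hΨ : ∀ (x : C.gr X c) (y : {y : C.A X // C.Deg ((X.dim : ℤ) - c) y}),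
      HasDegree C ((x : C.A X) * y.1) (Ψ x y) := fun x y => hβ x ⟨y.1, y.2⟩
  refine ⟨Ψ, hΨ, ?_⟩
  have h1 : {f : {y : C.A X // C.Deg ((X.dim : ℤ) - c) y} → ℚ | ∃ x : C.A X, C.Deg c x ∧
      ∀ y, HasDegree C (C.mul x y.1) (f y)} =
      (LinearMap.range Ψ : Set ({y : C.A X // C.Deg ((X.dim : ℤ) - c) y} → ℚ)) := by
    ext f
    constructor
    · rintro ⟨x, hx, hf⟩
      refine ⟨⟨x, hx⟩, ?_⟩
      funext y
      exact hasDegree_unique hS (hΨ ⟨x, hx⟩ y) (hf y)
    · rintro ⟨x, rfl⟩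
      exact ⟨x.1, x.2, fun y => hΨ x y⟩
  rw [NumClasses, h1, Submodule.span_eq]

/-- The pairing as a linear map. -/
noncomputable def numMap (X : 𝒱.Obj) (c : ℤ) :
    C.gr X c →ₗ[ℚ] ({y : C.A X // C.Deg ((X.dim : ℤ) - c) y} → ℚ) :=
  Classical.choose (exists_num hS X c)

theorem numMap_deg (X : 𝒱.Obj) (c : ℤ) (x : C.gr X c)
    (y : {y : C.A X // C.Deg ((X.dim : ℤ) - c) y}) :
    HasDegree C ((x : C.A X) * y.1) (numMap hS X c x y) :=
  (Classical.choose_spec (exists_num hS X c)).1 x y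

theorem range_numMap (X : 𝒱.Obj) (c : ℤ) :
    LinearMap.range (numMap hS X c) = NumClasses C X c :=
  (Classical.choose_spec (exists_num hS X c)).2

/-- The cycles which are numerically equivalent to zero. -/
noncomputable def numKer (X : 𝒱.Obj) (c : ℤ) : Submodule ℚ (C.gr X c) :=
  LinearMap.ker (numMap hS X c)

theorem numRank_eq (X : 𝒱.Obj) (c : ℤ) : numRank C X c = finrank ℚ (C.gr X c ⧸ numKer hS X c) := by
  rw [numRank, ← range_numMap hS]
  exact ((numMap hS X c).quotKerEquivRange.finrank_eq).symm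

theorem finite_iff (X : 𝒱.Obj) (c : ℤ) (h : Module.Finite ℚ (NumClasses C X c)) :
    Module.Finite ℚ (C.gr X c ⧸ numKer hS X c) := by
  rw [← range_numMap hS] at h
  exact Module.Finite.equiv (numMap hS X c).quotKerEquivRange.symm

theorem mem_numKer (X : 𝒱.Obj) (c : ℤ) (x : C.gr X c) : x ∈ numKer hS X c ↔
    ∀ y : C.A X, C.Deg ((X.dim : ℤ) - c) y → H.tr X (H.cl ((x : C.A X) * y)) = 0 := by
  obtain ⟨κ, hκ, htr⟩ := exists_kappa hS X
  constructor
  · intro hx y hy
    have h1 := htr _ _ (numMap_deg hS X c x ⟨y, hy⟩)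
    have h2 : numMap hS X c x = 0 := hx
    rw [h2, Pi.zero_apply, Rat.cast_zero, zero_mul] at h1
    exact h1
  · intro hx
    refine LinearMap.mem_ker.2 ?_
    funext y
    have h1 := htr _ _ (numMap_deg hS X c x y)
    rw [hx _ y.2] at h1
    rcases mul_eq_zero.1 h1.symm with h2 | h2
    · exact_mod_cast h2
    · exact absurd h2 hκ

/-- Homologically trivial cycles are numerically trivial. -/
theorem mem_numKer_of_cl (X : 𝒱.Obj) (c : ℤ) (x : C.gr X c) (hx : H.cl (x : C.A X) = 0) :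
    x ∈ numKer hS X c := by
  rw [mem_numKer]
  intro y _
  rw [map_mul, hx, zero_mul, map_zero]

end num

section gen

/-- Iterates. -/
theorem iterate_eq {X : 𝒱.Obj} (π : X ⟶ X) (μ : K) (m : ℕ) (w : H.A X) :
    (fun v => H.up π v - μ • v)^[m] w = op (frob H π) μ m w := by
  have h1 : (fun v => H.up π v - μ • v) = ⇑(frob H π - μ • (1 : Module.End K (H.A X))) := by
    funext v
    rw [LinearMap.sub_apply, LinearMap.smul_apply, Module.End.one_apply]
    rfl
  rw [h1, op, Module.End.pow_apply]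

theorem genTate_eq (π : X ⟶ X) (Q : ℕ) (c : ℤ) :
    GenTate H π Q c = H.gr X (2 * c) ⊓ (frob H π).maxGenEigenspace ((Q : K) ^ c) := by
  have h1 : {a | H.Deg (2 * c) a ∧ ∃ m : ℕ, (fun b => H.up π b - (Q : K) ^ c • b)^[m] a = 0} =
      ((H.gr X (2 * c) ⊓ (frob H π).maxGenEigenspace ((Q : K) ^ c) : Submodule K (H.A X)) :
        Set (H.A X)) := by
    ext a
    rw [Set.mem_ofPred_eq, SetLike.mem_coe, Submodule.mem_inf, Module.End.mem_maxGenEigenspace]
    refine and_congr Iff.rfl (exists_congr fun m => ?_)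
    rw [iterate_eq]
    rfl
  rw [GenTate, h1, Submodule.span_eq]

theorem mem_genTate (π : X ⟶ X) (Q : ℕ) (c : ℤ) (a : H.A X) : a ∈ GenTate H π Q c ↔
    a ∈ H.gr X (2 * c) ∧ ∃ m : ℕ, op (frob H π) ((Q : K) ^ c) m a = 0 := by
  rw [genTate_eq, Submodule.mem_inf, Module.End.mem_maxGenEigenspace]
  rfl

theorem mem_genTate_of_eigen (π : X ⟶ X) (Q : ℕ) (c : ℤ) (a : H.A X) (ha : a ∈ H.gr X (2 * c))
    (h : H.pull π a = (Q : K) ^ c • a) : a ∈ GenTate H π Q c := by
  rw [mem_genTate]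
  refine ⟨ha, 1, ?_⟩
  rw [op, pow_one, LinearMap.sub_apply, LinearMap.smul_apply, Module.End.one_apply, sub_eq_zero]
  exact h

theorem pull_cl_frob {π : X ⟶ X} {Q : ℕ}
    (hF : ∀ (i : ℕ) (z : C.A X), C.Deg i z → C.up π z = (Q : ℚ) ^ i • z) {i : ℤ} {y : C.A X}
    (hy : y ∈ C.gr X i) : H.pull π (H.cl y) = (Q : K) ^ i • H.cl y := by
  rcases lt_or_ge i 0 with hi | hi
  · rw [C.gr_neg _ _ hi] at hy
    rw [(Submodule.mem_bot _).1 hy, map_zero, map_zero, smul_zero]
  · obtain ⟨n, rfl⟩ := Int.eq_ofNat_of_zero_le hi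
    have h1 : C.pull π y = (Q : ℚ) ^ n • y := hF n y hy
    rw [← H.cl_pull, h1, cl_smul]
    push_cast
    rw [zpow_natCast]

theorem cl_mem_genTate {π : X ⟶ X} {Q : ℕ}
    (hF : ∀ (i : ℕ) (z : C.A X), C.Deg i z → C.up π z = (Q : ℚ) ^ i • z) {c : ℤ} {x : C.A X}
    (hx : x ∈ C.gr X c) : H.cl x ∈ GenTate H π Q c :=
  mem_genTate_of_eigen π Q c _ (H.cl_mem hx) (pull_cl_frob hF hx)

/-- **The rank is at most the order of the pole.** -/
theorem numRank_le (hS : IsStandard H) {π : X ⟶ X} {Q : ℕ}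
    (hF : ∀ (i : ℕ) (z : C.A X), C.Deg i z → C.up π z = (Q : ℚ) ^ i • z) (c : ℤ) :
    Module.Finite ℚ (NumClasses C X c) ∧ numRank C X c ≤ poleOrder H π Q c := by
  classical
  have := hS.finite X
  obtain ⟨κ, hκ, htr⟩ := exists_kappa hS X
  let L : GenTate H π Q c →ₗ[K] ({y : C.A X // C.Deg ((X.dim : ℤ) - c) y} → K) :=
    { toFun := fun a y => κ⁻¹ * H.tr X ((a : H.A X) * H.cl y.1)
      map_add' := fun a b => by
        funext y
        simp only [Submodule.coe_add, add_mul, map_add, Pi.add_apply, mul_add]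
      map_smul' := fun r a => by
        funext y
        simp only [Submodule.coe_smul, smul_mul_assoc, map_smul, Pi.smul_apply, smul_eq_mul,
          RingHom.id_apply]
        ring }
  have hL : ∀ (x : C.gr X c), L ⟨H.cl (x : C.A X), cl_mem_genTate hF x.2⟩ =
      fun y => (numMap hS X c x y : K) := by
    intro x
    funext y
    change κ⁻¹ * H.tr X (H.cl (x : C.A X) * H.cl y.1) = _
    rw [← map_mul, htr _ _ (numMap_deg hS X c x y)]
    field_simp
  have hrank : Module.rank ℚ (NumClasses C X c) ≤ (poleOrder H π Q c : ℕ) := by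
    refine rank_le fun s hs => ?_
    have h1 : ∀ f : s, ∃ x : C.gr X c, numMap hS X c x = (f.1 : NumClasses C X c).1 := by
      intro f
      have h2 : (f.1 : NumClasses C X c).1 ∈ LinearMap.range (numMap hS X c) := by
        rw [range_numMap hS]
        exact f.1.2
      exact h2
    choose x hx using h1
    have h2 : LinearIndependent ℚ fun f : s => (f.1 : NumClasses C X c).1 :=
      hs.map' (NumClasses C X c).subtype (Submodule.ker_subtype _)
    have h3 := linearIndependent_cast (F := K) _ h2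
    have h4 : LinearIndependent K fun f : s =>
        (⟨H.cl (x f : C.A X), cl_mem_genTate hF (x f).2⟩ : GenTate H π Q c) := by
      refine LinearIndependent.of_comp L ?_
      convert h3 using 1
      funext f
      rw [Function.comp_apply, hL, hx]
    have h5 := h4.fintype_card_le_finrank
    rw [Fintype.card_coe] at h5
    exact h5
  have hfin : Module.Finite ℚ (NumClasses C X c) := by
    rw [← Module.rank_lt_aleph0_iff]
    exact hrank.trans_lt (Cardinal.natCast_lt_aleph0)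
  refine ⟨hfin, ?_⟩
  rw [numRank]
  have h6 := Module.finrank_eq_rank ℚ (NumClasses C X c)
  rw [← h6] at hrank
  exact_mod_cast hrank

/-- A lower bound for the rank. -/
theorem card_le_numRank (hS : IsStandard H) {c : ℤ} (hfin : Module.Finite ℚ (NumClasses C X c))
    {ι : Type} [Fintype ι] (x y : ι → C.A X) (hx : ∀ i, C.Deg c (x i))
    (hy : ∀ i, C.Deg ((X.dim : ℤ) - c) (y i)) (h1 : ∀ i, H.tr X (H.cl (x i * y i)) ≠ 0)
    (h2 : ∀ i j, i ≠ j → H.tr X (H.cl (x i * y j)) = 0) : Fintype.card ι ≤ numRank C X c := by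
  classical
  obtain ⟨κ, hκ, htr⟩ := exists_kappa hS X
  let f : ι → NumClasses C X c := fun i => ⟨numMap hS X c ⟨x i, hx i⟩, by
    rw [← range_numMap hS]
    exact ⟨_, rfl⟩⟩
  have hf : LinearIndependent ℚ f := by
    rw [linearIndependent_iff']
    intro s g hg j hj
    have h3 := congrArg (fun v : NumClasses C X c => v.1 ⟨y j, hy j⟩) hg
    simp only [Submodule.coe_sum, Submodule.coe_smul, Finset.sum_apply, Pi.smul_apply, smul_eq_mul,
      ZeroMemClass.coe_zero, Pi.zero_apply] at h3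
    rw [Finset.sum_eq_single j] at h3
    · rcases mul_eq_zero.1 h3 with h4 | h4
      · exact h4
      · exfalso
        have h5 := htr _ _ (numMap_deg hS X c ⟨x j, hx j⟩ ⟨y j, hy j⟩)
        have h6 : numMap hS X c ⟨x j, hx j⟩ ⟨y j, hy j⟩ = 0 := h4
        rw [h6, Rat.cast_zero, zero_mul] at h5
        exact h1 j h5
    · intro i _ hij
      have h5 := htr _ _ (numMap_deg hS X c ⟨x i, hx i⟩ ⟨y j, hy j⟩)
      rw [h2 i j hij] at h5
      have h6 : numMap hS X c ⟨x i, hx i⟩ ⟨y j, hy j⟩ = 0 := by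
        rcases mul_eq_zero.1 h5.symm with h7 | h7
        · exact_mod_cast h7
        · exact absurd h7 hκ
      have h7 : (f i).1 ⟨y j, hy j⟩ = 0 := h6
      rw [h7, mul_zero]
    · intro h4
      exact absurd hj h4
  exact hf.fintype_card_le_finrank

end gen

end Pool.Agent.Q219.ST
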