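import Mathlib
import Pool.Agent.Q219.ST.Num

/-!
# The decomposition for the product with an abelian variety
-/

set_option autoImplicit false
set_option linter.unusedSectionVars false
set_option linter.unusedVariables false

open CategoryTheory AlgebraicGeometry

universe u v w

namespace Pool.Agent.Q219.ST

open Module Polynomial Pool.Agent.H914 Pool.Agent.H914.VarClass Pool.Agent.H914.VarClass.Obj
  Pool.Agent.W492.BB Pool.Agent.W550.Corr Pool.Agent.W484.HS Pool.Agent.W484.CH Pool.Agent.Y154.BQ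

variable {k : Type u} [Field k] {𝒱 : VarClass k} {C : TheoryData.{u, v, 0} 𝒱 ℚ} {K : Type w}
  [Field K] [CharZero K] {H : WeilTheoryData.{u, v, w} C K} [hC : IsChow C] [hH : IsWeil H]
  {A Z : 𝒱.Obj} {J : Type} [Fintype J] {deg : J → ℕ} {D E : J → C.A A}
  (hS : IsStandard H) (h : IsDual A Z deg D E) {πA : A ⟶ A} {πZ : Z ⟶ Z} {Q : ℕ} (hQ : Q ≠ 0)
  (hπA : IsFrobenius C πA Q) (hF : IsFrobenius C (prodMap πA πZ) Q)
  (hK : ∀ (i : ℤ) (m : ℕ) (w : H.A (A.prod Z)),
    op (frob H (prodMap πA πZ)) ((Q : K) ^ i) m w = 0 → H.act (H.cl (proj Z D E)) w = w)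

include hK in
theorem hK_one (i : ℤ) (w : H.A (A.prod Z)) (hw : H.pull (prodMap πA πZ) w = (Q : K) ^ i • w) :
    H.act (H.cl (proj Z D E)) w = w := by
  refine hK i 1 w ?_
  rw [op, pow_one, LinearMap.sub_apply, LinearMap.smul_apply, Module.End.one_apply, sub_eq_zero]
  exact hw

include hS in
theorem cl_one_ne (X : 𝒱.Obj) : H.cl (1 : C.A X) ≠ 0 := by
  have := hS.nontrivial X
  rw [map_one]
  exact one_ne_zero

include hS h hπA hK in
/-- Every codimension up to the dimension of `A` occurs. -/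
theorem exists_deg (hD : ∀ j, D j ∈ DivProd C A (deg j)) {l : ℕ} (hl : l ≤ A.dim) :
    ∃ j, deg j = l := by
  by_contra hcon
  push Not at hcon
  -- the pull-backs of classes of codimension `l` on `A` vanish
  have hzero : ∀ (l : ℕ), (∀ j, deg j ≠ l) → ∀ y ∈ C.gr A l, H.cl (C.pull (fst A Z) y) = 0 := by
    intro l hcon y hy
    have h0 : H.pull (prodMap πA πZ) (H.cl (C.pull (fst A Z) y)) =
        (Q : K) ^ (l : ℤ) • H.cl (C.pull (fst A Z) y) := by
      have h1 : H.cl (C.pull (fst A Z) y) = H.ext (H.cl y) (1 : H.A Z) := by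
        rw [TheoryData.ext, map_one, mul_one, H.cl_pull]
      have h2 : C.pull πA y = (Q : ℚ) ^ l • y := hπA.chow l y hy
      rw [h1, pull_prodMap_ext, map_one, ← H.cl_pull, h2, cl_smul, ext_smul_left, zpow_natCast,
        ← ext_smul_right]
      push_cast
      rfl
    have h1 := eq_sum_of_act (hK_one hK _ _ h0)
    rw [h1]
    refine Finset.sum_eq_zero fun j _ => ?_
    rw [← W484.CK.cl_act', act_pairBy, ← map_mul]
    have h1 : E j * y ∈ C.gr A ((A.dim : ℤ) - deg j + l) := C.mul_mem (h.right j) hy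
    rcases lt_or_gt_of_ne (hcon j) with h2 | h2
    · rw [hS.chow_top A _ (by omega), Submodule.mem_bot] at h1
      rw [h1, map_zero, map_zero, map_zero, H.act_map_zero]
    · have h3 := C.push_mem (snd A Z) (C.pull_mem (fst A Z) h1)
      have h4 : (A.dim : ℤ) - deg j + l + 1 * ((Z.dim : ℤ) - (A.prod Z).dim) = l - deg j := by
        rw [Obj.dim_prod]
        push_cast
        ring
      rw [h4, C.gr_neg Z _ (by omega), Submodule.mem_bot] at h3
      rw [h3, map_zero, H.act_map_zero]
  obtain ⟨a, ha, -, ha2⟩ := exists_deg_one C A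
  obtain ⟨j, hj⟩ : ∃ j, deg j = A.dim := by
    by_contra hcon'
    push Not at hcon'
    have h1 := hzero A.dim hcon' a ha
    have h2 := congrArg H.cl (ha2 Z)
    rw [H.cl_push, h1, map_zero] at h2
    exact cl_one_ne hS Z h2.symm
  obtain ⟨L, hL1, hL2, hL3⟩ := hD j
  have hmem : (L.take l).prod ∈ C.gr A l := by
    have h1 : ∀ L' : List (C.A A), (∀ x ∈ L', x ∈ C.gr A 1) → L'.prod ∈ C.gr A L'.length := by
      intro L'
      induction L' with
      | nil => intro _; simpa using C.one_mem A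
      | cons a L' ih =>
        intro h2
        rw [List.prod_cons, List.length_cons]
        have h3 := C.mul_mem (h2 a (by simp)) (ih fun x hx => h2 x (by simp [hx]))
        push_cast
        rwa [add_comm]
    have h2 := h1 (L.take l) fun x hx => hL2 x (List.mem_of_mem_take hx)
    rwa [List.length_take, hL1, hj, min_eq_left hl] at h2
  have h1 := hzero l hcon _ hmem
  have h2 : H.cl (C.pull (fst A Z) (D j)) = 0 := by
    rw [hL3, ← List.take_append_drop l L, List.prod_append, map_mul, map_mul, h1, zero_mul]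
  have h3 := congrArg H.cl (h.eq j)
  rw [map_mul, H.cl_push, map_mul, h2, zero_mul, map_zero] at h3
  exact cl_one_ne hS Z h3.symm

section pole

include h hπA hQ in
theorem op_ext (j : J) (c : ℤ) (m : ℕ) (y : H.A Z) :
    op (frob H (prodMap πA πZ)) ((Q : K) ^ c) m (H.act (H.cl (extBy C Z (D j))) y) =
      ((Q : K) ^ deg j) ^ m • H.act (H.cl (extBy C Z (D j)))
        (op (frob H πZ) ((Q : K) ^ (c - deg j)) m y) := by
  have hQK : (Q : K) ≠ 0 := by exact_mod_cast hQ
  induction m with
  | zero => simp [op]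
  | succ m ih =>
    have h1 : ∀ (X : 𝒱.Obj) (π : X ⟶ X) (μ : K) (v : H.A X), op (frob H π) μ (m + 1) v =
        (frob H π - μ • (1 : Module.End K (H.A X))) (op (frob H π) μ m v) := by
      intro X π μ v
      rw [op, op, pow_succ', Module.End.mul_apply]
    rw [h1, h1, ih, map_smul]
    have h2 : (Q : K) ^ c = (Q : K) ^ deg j * (Q : K) ^ (c - deg j) := by
      rw [← zpow_natCast, ← zpow_add₀ hQK]
      congr 1
      ring
    have h3 := W484.CK.frob_ext h hπA (πZ := πZ) (H := H) j
      (op (frob H πZ) ((Q : K) ^ (c - deg j)) m y)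
    have h4 : (frob H (prodMap πA πZ) - (Q : K) ^ c • (1 : Module.End K (H.A (A.prod Z))))
        (H.act (H.cl (extBy C Z (D j))) (op (frob H πZ) ((Q : K) ^ (c - deg j)) m y)) =
        (Q : K) ^ deg j • H.act (H.cl (extBy C Z (D j)))
          ((frob H πZ - (Q : K) ^ (c - deg j) • (1 : Module.End K (H.A Z)))
            (op (frob H πZ) ((Q : K) ^ (c - deg j)) m y)) := by
      rw [LinearMap.sub_apply, LinearMap.smul_apply, Module.End.one_apply, LinearMap.sub_apply,
        LinearMap.smul_apply, Module.End.one_apply]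
      change H.pull (prodMap πA πZ) _ - _ = _ • H.act _ (H.pull πZ _ - _)
      rw [h3, h2, mul_smul, sub_eq_add_neg (H.pull πZ _), ← neg_smul, act_map_add,
        act_map_smul, smul_add, neg_smul, smul_neg, sub_eq_add_neg]
    rw [h4, smul_smul, pow_succ]

include h hQ hπA hK in
theorem op_pair (j : J) (c : ℤ) (m : ℕ) (w : H.A (A.prod Z))
    (hw : op (frob H (prodMap πA πZ)) ((Q : K) ^ c) m w = 0) :
    op (frob H πZ) ((Q : K) ^ (c - deg j)) m (H.act (H.cl (pairBy C Z (E j))) w) = 0 := by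
  have hQK : (Q : K) ≠ 0 := by exact_mod_cast hQ
  have h1 := eq_sum_of_act (hK c m w hw)
  have h3 : ∑ j, H.act (H.cl (extBy C Z (D j)))
        (((Q : K) ^ deg j) ^ m • op (frob H πZ) ((Q : K) ^ (c - deg j)) m
          (H.act (H.cl (pairBy C Z (E j))) w)) =
      ∑ j, H.act (H.cl (extBy C Z (D j))) 0 := by
    have h4 : ∀ j, H.act (H.cl (extBy C Z (D j)))
        (((Q : K) ^ deg j) ^ m • op (frob H πZ) ((Q : K) ^ (c - deg j)) m
          (H.act (H.cl (pairBy C Z (E j))) w)) =
        op (frob H (prodMap πA πZ)) ((Q : K) ^ c) m (H.act (H.cl (extBy C Z (D j)))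
          (H.act (H.cl (pairBy C Z (E j))) w)) := by
      intro j
      rw [op_ext h hQ hπA j, act_map_smul]
    rw [Finset.sum_congr rfl fun j _ => h4 j, ← map_sum, ← h1, hw]
    exact (Finset.sum_eq_zero fun j _ => H.act_map_zero _).symm
  have h5 := congrFun (W484.CK.coh_ext_inj h h3) j
  exact (smul_eq_zero.1 h5).resolve_left (pow_ne_zero _ (pow_ne_zero _ hQK))

include h hQ hπA in
theorem ext_mem_genTate (j : J) (c : ℤ) {y : H.A Z} (hy : y ∈ GenTate H πZ Q (c - deg j)) :
    H.act (H.cl (extBy C Z (D j))) y ∈ GenTate H (prodMap πA πZ) Q c := by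
  rw [mem_genTate] at hy ⊢
  obtain ⟨hy1, m, hy2⟩ := hy
  refine ⟨?_, m, ?_⟩
  · have h1 := W484.CK.ext_tateDeg h j (H := H) hy1
    rwa [sub_add_cancel] at h1
  · rw [op_ext h hQ hπA j, hy2, H.act_map_zero, smul_zero]

include h hQ hπA hK in
theorem pair_mem_genTate (j : J) (c : ℤ) {w : H.A (A.prod Z)}
    (hw : w ∈ GenTate H (prodMap πA πZ) Q c) :
    H.act (H.cl (pairBy C Z (E j))) w ∈ GenTate H πZ Q (c - deg j) := by
  rw [mem_genTate] at hw ⊢
  obtain ⟨hw1, m, hw2⟩ := hw
  exact ⟨W484.CK.pair_tateDeg h j hw1, m, op_pair h hQ hπA hK j c m w hw2⟩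

include hS h hQ hπA hK in
/-- **The order of the pole for the product.** -/
theorem poleOrder_prod (c : ℤ) :
    poleOrder H (prodMap πA πZ) Q c = ∑ j, poleOrder H πZ Q (c - deg j) := by
  classical
  have h1 := hS.finite Z
  have hfin : ∀ j : J, Module.Finite K (GenTate H πZ Q (c - deg j) ⧸
      (⊥ : Submodule K (GenTate H πZ Q (c - deg j)))) := fun j => inferInstance
  have h2 := finrank_eq_sum (F := K) (V := GenTate H (prodMap πA πZ) Q c)
    (W := fun j : J => GenTate H πZ Q (c - deg j)) ⊥ (fun _ => ⊥)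
    (fun j => (actB H.toTheoryData (H.cl (pairBy C Z (E j)))).restrict
      (fun w hw => pair_mem_genTate h hQ hπA hK j c hw))
    (fun j => (actB H.toTheoryData (H.cl (extBy C Z (D j)))).restrict
      (fun y hy => ext_mem_genTate h hQ hπA j c hy))
    (fun j w => ?_) (fun i j hij w => ?_) (fun v => ?_) (fun j v hv => ?_) (fun j w hw => ?_)
  · rw [(Submodule.quotEquivOfEqBot _ rfl).finrank_eq] at h2
    rw [poleOrder, h2]
    refine Finset.sum_congr rfl fun j _ => ?_
    rw [(Submodule.quotEquivOfEqBot _ rfl).finrank_eq, poleOrder]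
  · refine Subtype.ext ?_
    have h3 := W484.CK.coh_pair_ext (H := H) h j j (w : H.A Z)
    rw [if_pos rfl] at h3
    exact h3
  · refine Subtype.ext ?_
    have h3 := W484.CK.coh_pair_ext (H := H) h j i (w : H.A Z)
    rw [if_neg hij.symm] at h3
    exact h3
  · rw [Submodule.mem_bot]
    refine Subtype.ext ?_
    rw [Submodule.coe_sub, Submodule.coe_sum, ZeroMemClass.coe_zero, sub_eq_zero]
    obtain ⟨-, m, hm⟩ := (mem_genTate _ _ _ _).1 v.2
    exact eq_sum_of_act (hK c m v hm)
  · rw [Submodule.mem_bot] at hv ⊢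
    rw [hv, map_zero]
  · rw [Submodule.mem_bot] at hw ⊢
    rw [hw, map_zero]

end pole

section rank

include h in
/-- The external product with `D j` preserves numerical triviality. -/
theorem ext_num {c : ℤ} (j : J) {x : C.A Z}
    (hnum : ∀ y : C.A Z, C.Deg ((Z.dim : ℤ) - (c - deg j)) y → H.tr Z (H.cl (x * y)) = 0)
    (y : C.A (A.prod Z)) (hy : C.Deg (((A.prod Z).dim : ℤ) - c) y) :
    H.tr (A.prod Z) (H.cl (C.ext (D j) x * y)) = 0 := by
  change H.tr (A.prod Z) (H.cl (C.pull (fst A Z) (D j) * C.pull (snd A Z) x * y)) = 0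
  have h1 : C.pull (fst A Z) (D j) * C.pull (snd A Z) x * y =
      C.pull (snd A Z) x * (C.pull (fst A Z) (D j) * y) := by
    rw [chow_mul_comm (C.pull (fst A Z) (D j)), mul_assoc]
  rw [h1, ← H.tr_push (snd A Z), ← H.cl_push, C.proj_left]
  have h2 := C.push_mem (snd A Z) (C.mul_mem (C.pull_mem (fst A Z) (h.left j)) hy)
  have h3 : (deg j : ℤ) + (((A.prod Z).dim : ℤ) - c) + 1 * ((Z.dim : ℤ) - (A.prod Z).dim) =
      Z.dim - (c - deg j) := by
    ring
  rw [h3] at h2
  exact hnum _ h2

include h in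
/-- The push-forward of the product with `E j` preserves numerical triviality. -/
theorem pair_num {c : ℤ} (j : J) {x : C.A (A.prod Z)}
    (hnum : ∀ y : C.A (A.prod Z), C.Deg (((A.prod Z).dim : ℤ) - c) y →
      H.tr (A.prod Z) (H.cl (x * y)) = 0)
    (y : C.A Z) (hy : C.Deg ((Z.dim : ℤ) - (c - deg j)) y) :
    H.tr Z (H.cl (C.push (snd A Z) (C.pull (fst A Z) (E j) * x) * y)) = 0 := by
  rw [← C.proj_right, H.cl_push, H.tr_push]
  have h3 : C.Deg ((A.dim : ℤ) - deg j + (Z.dim - (c - deg j)))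
      (C.pull (fst A Z) (E j) * C.pull (snd A Z) y) :=
    C.mul_mem (C.pull_mem _ (h.right j)) (C.pull_mem _ hy)
  have h4 : C.pull (fst A Z) (E j) * x * C.pull (snd A Z) y =
      x * (C.pull (fst A Z) (E j) * C.pull (snd A Z) y) := by
    rw [chow_mul_comm (C.pull (fst A Z) (E j)) x, mul_assoc]
  rw [h4]
  have h6 : (A.dim : ℤ) - deg j + (Z.dim - (c - deg j)) = ((A.prod Z).dim : ℤ) - c := by
    rw [Obj.dim_prod]
    push_cast
    ring
  rw [h6] at h3
  exact hnum _ h3

include h in
theorem ext_mem_chow (j : J) (c : ℤ) {y : C.A Z} (hy : y ∈ C.gr Z (c - deg j)) :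
    actB C (extBy C Z (D j)) y ∈ C.gr (A.prod Z) c := by
  have h1 := act_mem_chow (extBy_mem (Z := Z) (h.left j)) hy
  rwa [sub_add_cancel] at h1

include h in
theorem pair_mem_chow (j : J) (c : ℤ) {x : C.A (A.prod Z)} (hx : x ∈ C.gr (A.prod Z) c) :
    actB C (pairBy C Z (E j)) x ∈ C.gr Z (c - deg j) := by
  have h1 := act_mem_chow (pairBy_mem (Z := Z) (h.right j)) hx
  rwa [← sub_eq_add_neg] at h1

include h in
theorem chow_pair_ext (i j : J) (y : C.A Z) [Decidable (i = j)] :
    actB C (pairBy C Z (E j)) (actB C (extBy C Z (D i)) y) = if i = j then y else 0 := by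
  have h1 : actB C (pairBy C Z (E j)) (actB C (extBy C Z (D i)) y) =
      C.act (C.comp (extBy C Z (D i)) (pairBy C Z (E j))) y := (C.act_comp _ _ _).symm
  by_cases hij : i = j
  · subst hij
    rw [h1, comp_extBy_same h, if_pos rfl]
    exact act_dg C y
  · rw [h1, comp_extBy_ne h i j hij, if_neg hij, C.act_zero]

include hS h hF hK in
/-- **The rank for the product.** -/
theorem numRank_prod (hfin : ∀ n : ℤ, Module.Finite ℚ (NumClasses C Z n)) (c : ℤ) :
    numRank C (A.prod Z) c = ∑ j, numRank C Z (c - deg j) := by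
  classical
  have hfin' : ∀ j : J, Module.Finite ℚ (C.gr Z (c - deg j) ⧸ numKer hS Z (c - deg j)) :=
    fun j => finite_iff hS Z _ (hfin _)
  have h2 := finrank_eq_sum (F := ℚ) (V := C.gr (A.prod Z) c)
    (W := fun j : J => C.gr Z (c - deg j)) (numKer hS (A.prod Z) c)
    (fun j => numKer hS Z (c - deg j))
    (fun j => (actB C (pairBy C Z (E j))).restrict (fun w hw => pair_mem_chow h j c hw))
    (fun j => (actB C (extBy C Z (D j))).restrict (fun y hy => ext_mem_chow h j c hy))
    (fun j w => ?_) (fun i j hij w => ?_) (fun v => ?_) (fun j v hv => ?_) (fun j w hw => ?_)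
  · rw [numRank_eq hS, h2]
    exact Finset.sum_congr rfl fun j _ => (numRank_eq hS _ _).symm
  · refine Subtype.ext ?_
    have h3 := chow_pair_ext h j j (w : C.A Z)
    rw [if_pos rfl] at h3
    exact h3
  · refine Subtype.ext ?_
    have h3 := chow_pair_ext h j i (w : C.A Z)
    rw [if_neg hij.symm] at h3
    exact h3
  · refine mem_numKer_of_cl hS _ _ _ ?_
    rw [Submodule.coe_sub, Submodule.coe_sum, map_sub, sub_eq_zero]
    have h3 := eq_sum_of_act (hK_one hK c _ (pull_cl_frob (H := H) hF.chow v.2))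
    rw [h3, map_sum]
    refine Finset.sum_congr rfl fun j _ => ?_
    rw [← W484.CK.cl_act', ← W484.CK.cl_act']
    rfl
  · rw [mem_numKer] at hv ⊢
    intro y hy
    have h3 := pair_num (H := H) h j (x := (v : C.A (A.prod Z))) hv y hy
    rw [← act_pairBy] at h3
    exact h3
  · rw [mem_numKer] at hw ⊢
    intro y hy
    have h3 := ext_num (H := H) h j (x := (w : C.A Z)) hw y hy
    rw [← act_extBy] at h3
    exact h3

end rank

end Pool.Agent.Q219.ST
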