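import Mathlib
import Pool.Agent.Q219.ST.Prod

/-!
# The formulas
-/

set_option autoImplicit false
set_option linter.unusedSectionVars false
set_option linter.unusedVariables false

open CategoryTheory AlgebraicGeometry

universe u v w

namespace Pool.Agent.Q219.ST

open Module Polynomial Pool.Agent.H914 Pool.Agent.H914.VarClass Pool.Agent.H914.VarClass.Obj
  Pool.Agent.W492.BB Pool.Agent.W550.Corr Pool.Agent.W484.HS Pool.Agent.W484.CH Pool.Agent.Y154.BQ

variable {k : Type u} [Field k] {𝒱 : VarClass k} {C : TheoryData.{u, v, 0} 𝒱 ℚ} {K : Type w}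
  [Field K] [CharZero K] {H : WeilTheoryData.{u, v, w} C K} [hC : IsChow C] [hH : IsWeil H]
  {A Z : 𝒱.Obj} {J : Type} [Fintype J] {deg : J → ℕ} {D E : J → C.A A}

section factor

variable (hS : IsStandard H) (h : IsDual A Z deg D E) {πA : A ⟶ A} {Q : ℕ}
  (hπA : IsFrobenius C πA Q)

include hS in
theorem tr_ne_zero_of_push {a : C.A A} (Z : 𝒱.Obj)
    (h : C.push (snd A Z) (C.pull (fst A Z) a) = 1) : H.tr A (H.cl a) ≠ 0 := by
  intro h0
  obtain ⟨τ, hτ, htr⟩ := exists_tau hS A Z
  have := hS.nontrivial Z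
  apply one_ne_zero (α := H.A Z)
  apply H.nondeg
  intro b
  have h1 := htr (H.cl a) (1 * b)
  rw [h0, zero_mul, TheoryData.ext, tr_snd, ← H.cl_pull, ← H.cl_push, h, map_one] at h1
  rcases mul_eq_zero.1 h1 with h2 | h2
  · exact absurd h2 hτ
  · rwa [one_mul] at h2

include hS h hπA in
/-- **The formula of Tate for `A`.** -/
theorem factor_eq
    (hN : ∀ (i : ℕ) (m : ℕ) (a : H.A A), op (frob H πA) ((Q : K) ^ (i : ℤ)) m a = 0 →
        a ∈ Submodule.span K {c : H.A A | ∃ j, deg j = i ∧ c = H.cl (D j)}) (i : ℕ) :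
    numRank C A i = Fintype.card {j // deg j = i} ∧
      poleOrder H πA Q i = Fintype.card {j // deg j = i} := by
  classical
  have := hS.finite A
  obtain ⟨hfin, hle⟩ := numRank_le (H := H) hS hπA.chow (X := A) i
  have h1 : poleOrder H πA Q i ≤ Fintype.card {j // deg j = i} := by
    have h2 : GenTate H πA Q i ≤ Submodule.span K
        (Set.range fun j : {j // deg j = i} => H.cl (D j.1)) := by
      intro a ha
      obtain ⟨-, m, hm⟩ := (mem_genTate _ _ _ _).1 ha
      have h3 := hN i m a hm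
      refine Submodule.span_mono ?_ h3
      rintro _ ⟨j, hj, rfl⟩
      exact ⟨⟨j, hj⟩, rfl⟩
    exact (Submodule.finrank_mono h2).trans (finrank_range_le_card _)
  have h2 : Fintype.card {j // deg j = i} ≤ numRank C A i := by
    refine card_le_numRank hS hfin (fun j => D j.1) (fun j => E j.1) (fun j => ?_) (fun j => ?_)
      (fun j => ?_) (fun j l hjl => ?_)
    · have h3 := h.left j.1
      rwa [j.2] at h3
    · have h3 := h.right j.1
      rwa [j.2] at h3
    · exact tr_ne_zero_of_push hS Z (h.eq j.1)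
    · refine tr_eq_zero_of_push Z ?_
      rw [← H.cl_pull, ← H.cl_push, h.ne j.1 l.1 (fun h4 => hjl (Subtype.ext h4)), map_zero]
  omega

end factor

theorem sum_fiber (h : ∀ j, deg j ≤ A.dim) (f : ℤ → ℕ) (c : ℤ) :
    ∑ j, f (c - deg j) =
      ∑ i ∈ Finset.range (A.dim + 1), Fintype.card {j // deg j = i} * f (c - i) := by
  classical
  rw [← Finset.sum_fiberwise_of_maps_to (s := Finset.univ) (t := Finset.range (A.dim + 1))
    (g := deg) (fun j _ => Finset.mem_range.2 (by have := h j; omega))]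
  refine Finset.sum_congr rfl fun i _ => ?_
  rw [Fintype.card_subtype, Finset.sum_congr rfl (g := fun _ => f (c - i)), Finset.sum_const,
    smul_eq_mul]
  intro j hj
  rw [(Finset.mem_filter.1 hj).2]

theorem chow_snd (πA : A ⟶ A) {πZ : Z ⟶ Z} {Q : ℕ} (hF : IsFrobenius C (prodMap πA πZ) Q) (i : ℕ)
    (z : C.A Z) (hz : C.Deg i z) : C.up πZ z = (Q : ℚ) ^ i • z := by
  have h1 : C.pull (prodMap πA πZ) (C.pull (snd A Z) z) = (Q : ℚ) ^ i • C.pull (snd A Z) z :=
    hF.chow i _ (C.pull_mem (snd A Z) hz)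
  rw [← C.pull_comp, prodMap_snd, C.pull_comp] at h1
  change C.pull πZ z = _
  rw [← sub_eq_zero]
  refine eq_zero_of_pull (A := A) ?_
  rw [map_sub, map_smul, h1, sub_self]

theorem formulas_of (hS : IsStandard H) (h : IsDual A Z deg D E) {πA : A ⟶ A} {πZ : Z ⟶ Z} {Q : ℕ}
    (hQ : Q ≠ 0) (hπA : IsFrobenius C πA Q) (hF : IsFrobenius C (prodMap πA πZ) Q)
    (hK : ∀ (i : ℤ) (m : ℕ) (w : H.A (A.prod Z)),
      op (frob H (prodMap πA πZ)) ((Q : K) ^ i) m w = 0 → H.act (H.cl (proj Z D E)) w = w)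
    (hN : ∀ (i : ℕ) (m : ℕ) (a : H.A A), op (frob H πA) ((Q : K) ^ (i : ℤ)) m a = 0 →
        a ∈ Submodule.span K {c : H.A A | ∃ j, deg j = i ∧ c = H.cl (D j)})
    (hD : ∀ j, D j ∈ DivProd C A (deg j)) : Formulas H A Z πA πZ Q := by
  classical
  have hA := factor_eq hS h hπA hN
  have hZ := fun c : ℤ => numRank_le (H := H) hS (X := Z) (π := πZ) (Q := Q) (chow_snd πA hF) c
  have hrank : ∀ c : ℤ, numRank C (A.prod Z) c =
      ∑ i ∈ Finset.range (A.dim + 1), numRank C A i * numRank C Z (c - i) := by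
    intro c
    rw [numRank_prod hS h hF hK (fun n => (hZ n).1), sum_fiber h.le (fun n => numRank C Z n)]
    exact Finset.sum_congr rfl fun i _ => by rw [(hA i).1]
  have hpole : ∀ c : ℤ, poleOrder H (prodMap πA πZ) Q c =
      ∑ i ∈ Finset.range (A.dim + 1), numRank C A i * poleOrder H πZ Q (c - i) := by
    intro c
    rw [poleOrder_prod hS h hQ hπA hK, sum_fiber h.le (fun n => poleOrder H πZ Q n)]
    exact Finset.sum_congr rfl fun i _ => by rw [(hA i).1]
  have hpos : ∀ i ≤ A.dim, 0 < numRank C A i := by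
    intro i hi
    obtain ⟨j, hj⟩ := exists_deg hS h hπA hK hD hi
    rw [(hA i).1]
    exact Fintype.card_pos_iff.2 ⟨⟨j, hj⟩⟩
  refine ⟨fun i hi => ⟨hpos i hi, ?_⟩, hrank, hpole, fun c => ?_⟩
  · rw [TateFormula, (hA i).1, (hA i).2]
  · unfold TateFormula
    rw [hrank, hpole, eq_comm]
    have h0 : ∀ i ∈ Finset.range (A.dim + 1), numRank C A i * numRank C Z (c - i) ≤
        numRank C A i * poleOrder H πZ Q (c - i) :=
      fun i _ => Nat.mul_le_mul_left _ (hZ (c - i)).2
    rw [Finset.sum_eq_sum_iff_of_le h0]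
    constructor
    · intro h1 i hi
      exact (Nat.eq_of_mul_eq_mul_left (hpos i hi) (h1 i (Finset.mem_range.2 (by omega)))).symm
    · intro h1 i hi
      rw [h1 i (by have := Finset.mem_range.1 hi; omega)]

/-- **The formulas follow from the absence of relations.** -/
theorem defectTimes_of (E : IntermediateField ℚ ℂ) (r : ℕ) {I : Type} {q : ℕ} (hq : 1 < q)
    {f : I → ℤ[X]} (hR : NoRel f q (HasSmallRank E r)) : DefectTimes E r q f := by
  intro k _ 𝒱 C _ F _ _ _ H _ s A Z πA πZ hsit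
  have hS := W484.CK.isStandard_bridge hsit.standard
  obtain ⟨J, hJ, deg, D, E', hne, hdual, hD, hN, hK⟩ := kunneth_gen hq hR hS hsit.pos
    (W484.CK.isAbelian_bridge hsit.abelian) (πZ := πZ) hsit.small
  exact formulas_of hS hdual (pow_ne_zero _ (by omega))
    (W484.CK.isFrobenius_bridge hsit.abelian.frobenius)
    (W484.CK.isFrobenius_bridge hsit.frobenius) hK hN hD

end Pool.Agent.Q219.ST
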