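import Mathlib
import Pool.Agent.Q219.ST.Main
import Pool.Agent.Q219.ST.DDefs

/-!
# Homological and numerical equivalence on products: proofs
-/

set_option autoImplicit false
set_option linter.unusedSectionVars false
set_option linter.unusedVariables false

open CategoryTheory AlgebraicGeometry

universe u v w

namespace Pool.Agent.Q219.ST

open Module Polynomial Pool.Agent.H914 Pool.Agent.H914.VarClass Pool.Agent.H914.VarClass.Obj
  Pool.Agent.W492.BB Pool.Agent.W550.Corr Pool.Agent.W484.HS Pool.Agent.W484.CH Pool.Agent.Y154.BQ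

variable {k : Type u} [Field k] {𝒱 : VarClass k} {C : TheoryData.{u, v, 0} 𝒱 ℚ} {K : Type w}
  [Field K] [CharZero K] {H : WeilTheoryData.{u, v, w} C K} [hC : IsChow C] [hH : IsWeil H]
  {A Z X : 𝒱.Obj} {J : Type} [Fintype J] {deg : J → ℕ} {D E : J → C.A A}

theorem numTrivial_iff (hS : IsStandard H) {c : ℤ} {x : C.A X} (hx : C.Deg c x) :
    NumTrivial c x ↔
      ∀ y : C.A X, C.Deg ((X.dim : ℤ) - c) y → H.tr X (H.cl (x * y)) = 0 := by
  obtain ⟨κ, hκ, htr⟩ := exists_kappa hS X
  constructor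
  · intro h y hy
    have h1 := htr _ _ (h y hy)
    rw [Rat.cast_zero, zero_mul] at h1
    exact h1
  · intro h y hy
    obtain ⟨n, hn⟩ := hasDegree_exists hS (i := c + (X.dim - c)) (by ring) (C.mul_mem hx hy)
    have h1 := htr _ _ hn
    rw [h y hy] at h1
    have h2 : n = 0 := by
      rcases mul_eq_zero.1 h1.symm with h2 | h2
      · exact_mod_cast h2
      · exact absurd h2 hκ
    rw [h2] at hn
    exact hn

theorem numTrivial_of_hom (hS : IsStandard H) {c : ℤ} {x : C.A X} (hx : C.Deg c x)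
    (h : HomTrivial H x) : NumTrivial c x := by
  rw [numTrivial_iff hS hx]
  intro y _
  have h1 : H.cl x = 0 := h
  rw [map_mul, h1, zero_mul, map_zero]

theorem cycles_of (hS : IsStandard H) (h : IsDual A Z deg D E) {πA : A ⟶ A} {πZ : Z ⟶ Z} {Q : ℕ}
    (hQ : Q ≠ 0) (hπA : IsFrobenius C πA Q) (hF : IsFrobenius C (prodMap πA πZ) Q)
    (hK : ∀ (i : ℤ) (m : ℕ) (w : H.A (A.prod Z)),
      op (frob H (prodMap πA πZ)) ((Q : K) ^ i) m w = 0 → H.act (H.cl (proj Z D E)) w = w)
    (hD : ∀ j, D j ∈ DivProd C A (deg j)) : CycleKunneth H A Z ∧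
      ∀ c : ℤ, HomEqNumIn H (A.prod Z) c ↔ ∀ i ≤ A.dim, HomEqNumIn H Z (c - i) := by
  classical
  have hdeg : ∀ i : ℕ, i ≤ A.dim ↔ ∃ j, deg j = i := by
    intro i
    constructor
    · exact fun hi => exists_deg hS h hπA hK hD hi
    · rintro ⟨j, rfl⟩
      exact h.le j
  -- the expansion
  have hexp : ∀ (c : ℤ) (x : C.A (A.prod Z)), C.Deg c x →
      H.cl x = H.cl (∑ j, C.ext (D j) (C.push (snd A Z) (C.pull (fst A Z) (E j) * x))) := by
    intro c x hx
    have h1 := eq_sum_of_act (hK_one hK c _ (pull_cl_frob (H := H) hF.chow hx))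
    rw [h1, map_sum]
    refine Finset.sum_congr rfl fun j _ => ?_
    rw [← W484.CK.cl_act', ← W484.CK.cl_act', act_pairBy, act_extBy]
  have hmem : ∀ (c : ℤ) (x : C.A (A.prod Z)), C.Deg c x → ∀ j,
      C.Deg (c - deg j) (C.push (snd A Z) (C.pull (fst A Z) (E j) * x)) :=
    fun c x hx j => push_snd_mem (h.right j) hx
  have hextmem : ∀ (c : ℤ) (j : J) (z : C.A Z), C.Deg (c - deg j) z → C.Deg c (C.ext (D j) z) := by
    intro c j z hz
    have h1 := C.mul_mem (C.pull_mem (fst A Z) (h.left j)) (C.pull_mem (snd A Z) hz)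
    rwa [add_sub_cancel] at h1
  -- homological triviality
  have hhom : ∀ (c : ℤ) (x : C.A (A.prod Z)), C.Deg c x → (HomTrivial H x ↔
      ∀ j, HomTrivial H (C.push (snd A Z) (C.pull (fst A Z) (E j) * x))) := by
    intro c x hx
    constructor
    · intro h1 j
      have h1' : H.cl x = 0 := h1
      change H.cl _ = 0
      rw [H.cl_push, map_mul, h1', mul_zero, map_zero]
    · intro h1
      change H.cl x = 0
      rw [hexp c x hx, map_sum]
      refine Finset.sum_eq_zero fun j _ => ?_
      have h2 : H.cl (C.push (snd A Z) (C.pull (fst A Z) (E j) * x)) = 0 := h1 j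
      change H.cl (C.pull (fst A Z) (D j) * C.pull (snd A Z) _) = 0
      rw [map_mul, H.cl_pull (snd A Z), h2, map_zero, mul_zero]
  -- numerical triviality
  have hnum : ∀ (c : ℤ) (x : C.A (A.prod Z)), C.Deg c x → (NumTrivial c x ↔
      ∀ j, NumTrivial (c - deg j) (C.push (snd A Z) (C.pull (fst A Z) (E j) * x))) := by
    intro c x hx
    constructor
    · intro h1 j
      rw [numTrivial_iff hS (hmem c x hx j)]
      exact pair_num h j ((numTrivial_iff hS hx).1 h1)
    · intro h1
      rw [numTrivial_iff hS hx]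
      intro y hy
      rw [map_mul, hexp c x hx, ← map_mul, Finset.sum_mul, map_sum, map_sum]
      refine Finset.sum_eq_zero fun j _ => ?_
      exact ext_num h j ((numTrivial_iff hS (hmem c x hx j)).1 (h1 j)) y hy
  -- the components
  have hcomp : ∀ (z : J → C.A Z) (j : J),
      C.push (snd A Z) (C.pull (fst A Z) (E j) * ∑ i, C.ext (D i) (z i)) = z j := by
    intro z j
    have h1 : ∑ i, C.ext (D i) (z i) = ∑ i, actB C (extBy C Z (D i)) (z i) :=
      Finset.sum_congr rfl fun i _ => (act_extBy C (D i) (z i)).symm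
    have h2 : C.push (snd A Z) (C.pull (fst A Z) (E j) * ∑ i, C.ext (D i) (z i)) =
        actB C (pairBy C Z (E j)) (∑ i, C.ext (D i) (z i)) := (act_pairBy C (E j) _).symm
    rw [h2, h1, map_sum, Finset.sum_congr rfl fun i _ => chow_pair_ext h i j (z i),
      Finset.sum_ite_eq', if_pos (Finset.mem_univ _)]
  refine ⟨⟨J, inferInstance, deg, D, fun j => hD j, hdeg, fun c => ⟨fun x hx => ⟨_, hmem c x hx, ?_⟩,
    fun z hz => ?_⟩⟩, fun c => ?_⟩
  · change H.cl (x - ∑ j, C.ext (D j) (C.push (snd A Z) (C.pull (fst A Z) (E j) * x))) = 0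
    rw [map_sub, ← hexp c x hx, sub_self]
  · have hx : C.Deg c (∑ j, C.ext (D j) (z j)) :=
      Submodule.sum_mem _ fun j _ => hextmem c j _ (hz j)
    have h1 := hhom c _ hx
    have h2 := hnum c _ hx
    simp only [hcomp] at h1 h2
    exact ⟨h1, h2⟩
  · constructor
    · intro h0 i hi z hz hn
      obtain ⟨j, rfl⟩ := (hdeg i).1 hi
      have h1 := hextmem c j z hz
      have h2 : NumTrivial c (C.ext (D j) z) := by
        rw [numTrivial_iff hS h1]
        exact ext_num h j ((numTrivial_iff hS hz).1 hn)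
      have h3 : H.cl (C.ext (D j) z) = 0 := h0 _ h1 h2
      have h4 := W484.CK.coh_pair_ext (H := H) h j j (H.cl z)
      rw [if_pos rfl] at h4
      change H.cl z = 0
      rw [← h4, ← W484.CK.cl_act', act_extBy, h3, H.act_map_zero]
    · intro h0 x hx hn
      rw [hhom c x hx]
      intro j
      exact h0 (deg j) (h.le j) _ (hmem c x hx j) ((hnum c x hx).1 hn j)

/-- **The Kunneth formula for cycles follows from the absence of relations.** -/
theorem equivalencesTimes_of (E : IntermediateField ℚ ℂ) (r : ℕ) {I : Type} {q : ℕ} (hq : 1 < q)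
    {f : I → ℤ[X]} (hR : NoRel f q (HasSmallRank E r)) : EquivalencesTimes E r q f := by
  intro k _ 𝒱 C _ F _ _ _ H _ s A Z πA πZ hsit
  have hS := W484.CK.isStandard_bridge hsit.standard
  obtain ⟨J, hJ, deg, D, E', hne, hdual, hD, hN, hK⟩ := kunneth_gen hq hR hS hsit.pos
    (W484.CK.isAbelian_bridge hsit.abelian) (πZ := πZ) hsit.small
  exact cycles_of hS hdual (pow_ne_zero _ (by omega))
    (W484.CK.isFrobenius_bridge hsit.abelian.frobenius)
    (W484.CK.isFrobenius_bridge hsit.frobenius) hK hD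

end Pool.Agent.Q219.ST
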