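import Mathlib
import Pool.Agent.Q219.ST.Main
import Pool.Agent.Q219.NS.Pair2

/-!
# Good families have no relations
-/

set_option autoImplicit false

namespace Pool.Agent.Q219.ST

open Polynomial Module Pool.Agent.W521.Frob Pool.Agent.W484.HS Pool.Agent.W484.TB

theorem hasSmallRank_one (E : IntermediateField ℚ ℂ) (r : ℕ) : HasSmallRank E r 1 := by
  have hX1 : (Polynomial.X - 1 : ℚ[X]) ≠ 0 := by
    have := Polynomial.X_sub_C_ne_zero (1 : ℚ)
    rwa [map_one] at this
  refine ⟨Polynomial.X - 1, hX1, by simp, fun _ => 1, fun _ => one_ne_zero, ?_⟩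
  intro ρ hρ
  have h1 : ρ = 1 := by
    have h2 : aeval ρ (Polynomial.X - 1 : ℚ[X]) = 0 := hρ
    rwa [map_sub, aeval_X, map_one, sub_eq_zero] at h2
  exact ⟨1, 1, 0, Nat.one_pos, one_mem E, one_ne_zero, by simp [h1]⟩

theorem noRel_good {I : Type} [Finite I] (E : IntermediateField ℚ ℂ) [FiniteDimensional ℚ E] {q : ℕ}
    (hq : q ≠ 0) (r : ℕ) (h : I → ℤ[X]) (hm : ∀ i, (h i).Monic) (hr : ∀ i, r < (h i).natDegree)
    (hx : Pool.Agent.Q219.NS.Good (splitPrimes E) q h) :
    NoRel (fun i => weil q (h i)) q (HasSmallRank E r) where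
  monic i := weil_monic q (hm i)
  one := hasSmallRank_one E r
  pair s hs ρ hρ := by
    obtain ⟨χ, hχ, hρχ, hrank⟩ := hρ
    exact Pool.Agent.Q219.NS.exactPair_good E hq r h hm hr hx s hs χ hχ hrank ρ hρχ

end Pool.Agent.Q219.ST
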